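import Mathlib
import Pool.Agent.Pr18d2fb.Defs
import Pool.Agent.Pr18d2fb.Main

set_option autoImplicit false

namespace Pool.Agent.Results.MP_18d2fb_an.Main

open Filter Topology Pool.Agent.Pr18d2fb

/-- The answer to Question 1 is negative, over `ℝ` and over `ℂ`: there are a space `E` of type
`(B₀)` and a continuous linear `U` on `E` such that `I - cU` is a bijection for every scalar `c`,
and a single vector `x` whose Neumann series `∑ cᵏ Uᵏ x` does not converge for any `c ≠ 0`. -/
theorem result (𝕜 : Type) [RCLike 𝕜] :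
    ∃ (E : Type) (_ : AddCommGroup E) (_ : Module 𝕜 E) (_ : UniformSpace E)
      (_ : IsUniformAddGroup E) (_ : ContinuousSMul 𝕜 E),
      IsB0 𝕜 E ∧ ∃ U : E →L[𝕜] E,
        (∀ c : 𝕜, Function.Bijective (fun x : E => x - c • U x)) ∧
        ∃ x : E, ∀ c : 𝕜, c ≠ 0 →
          ¬ ∃ s : E, Tendsto (fun n : ℕ => ∑ k ∈ Finset.range n, c ^ k • (U ^ k) x) atTop (𝓝 s) :=
  ⟨E 𝕜, inferInstance, inferInstance, inferInstance, inferInstance, inferInstance, isB0, U, bij,
    xdiv, diverges⟩

end Pool.Agent.Results.MP_18d2fb_an.Main
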